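import Pool.Agent.H480.S3

/-!
`ψ` cannot be approximated by functions of simple shape on long windows when zeta has zeros near
the line `Re s = 1`.

For fixed `n ≥ 2` and `m ≥ 1` (arbitrary), a function is called tame on `[x, R x]` when the window
divides into at most `m` intervals inside each of which the `n`-th differences of the function have
one sign (`n = 2`: `m` pieces, each convex or concave). No formula for the function is given.
-/

open Filter Set Topology Pool.Agent.H480.S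

namespace Pool.Agent.Results.MP_5a4862_nt.TameApproximation

theorem result :
    (∃ A : ℝ → ℝ, Tendsto A (𝓝[<] 1) (𝓝 1) ∧ ∀ θ : ℝ, 1 / 2 < θ → θ < 1 →
      1 < A θ ∧ ∀ n m : ℕ, 2 ≤ n → 1 ≤ m → ∀ R : ℝ, A θ ^ m < R →
        (∃ᶠ x : ℝ in atTop, Approx n m θ R x) → ∀ s : ℂ, θ < s.re → riemannZeta s ≠ 0) ∧
    (∀ n m : ℕ, 2 ≤ n → 1 ≤ m →
      ((∃ σ₀ : ℝ, σ₀ < 1 ∧ ∀ s : ℂ, σ₀ < s.re → riemannZeta s ≠ 0) ↔
        ∃ R θ : ℝ, 1 < R ∧ θ < 1 ∧ ∃ᶠ x : ℝ in atTop, Approx n m θ R x) ∧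
      (∀ θ₀ : ℝ, 1 / 2 ≤ θ₀ → θ₀ < 1 →
        ((∀ s : ℂ, θ₀ < s.re → riemannZeta s ≠ 0) ↔
          ∀ θ R : ℝ, θ₀ < θ → 1 < R → ∃ᶠ x : ℝ in atTop, Approx n m θ R x))) := by
  refine ⟨⟨H353.AA, H353.AA_tendsto, fun θ h1 h2 => ⟨H313.LW.AA_gt θ h2, fun n m hn hm R hR hf => ?_⟩⟩,
    fun n m hn hm => ⟨q1_iff n m hn hm, fun θ₀ h0 h1 => half_iff n m hn hm θ₀ h0 h1⟩⟩
  have hA1 := H313.LW.AA_gt θ h2
  have hm0 : (0:ℝ) < m := by exact_mod_cast hm
  have hR0 : 0 < R := lt_trans (by positivity) hR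
  have hrm : (R ^ (1 / (m : ℝ))) ^ m = R := by
    rw [← Real.rpow_natCast, ← Real.rpow_mul hR0.le, one_div_mul_cancel hm0.ne', Real.rpow_one]
  refine tame_free n m hn hm θ h1 h2 R (R ^ (1 / (m : ℝ))) ?_ hrm.le hf
  by_contra hcon
  have := pow_le_pow_left₀ (Real.rpow_nonneg hR0.le _) (not_lt.1 hcon) m
  rw [hrm] at this
  linarith

end Pool.Agent.Results.MP_5a4862_nt.TameApproximation
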