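import Pool.Agent.H480.W5

open Complex MeasureTheory Filter Topology Set
open scoped ContDiff

namespace Pool.Agent.Results.MP_5a4862_nt.WeilPositivityRate

open Pool.Agent.H480.W

/-- **The exact rate at which Weil positivity fails.** -/
theorem result (P : (ℝ → ℂ) → Prop) (hP : Rich P) :
    (∀ (a : ℝ) (g : ℝ → ℂ), Test a g → Summable (fun ρ : NTZ =>
      (mz ρ : ℂ) * (hat g ρ * starRingEnd ℂ (hat g (1 - starRingEnd ℂ (ρ : ℂ)))))) ∧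
    (∀ a : ℝ, BddAbove {r : ℝ | ∃ g : ℝ → ℂ, P g ∧ Test a g ∧ ∫ x : ℝ, ‖deriv g x‖ ^ 2 ≤ 1 ∧ r = -weil g}) ∧
    (∀ Θ : ℝ, IsLUB (Complex.re '' NTZ) Θ →
      Tendsto (fun a : ℝ => Real.log (1 + defect P a) / a) atTop (𝓝 (2 * Θ - 1))) ∧
    (∀ θ : ℝ, 1 / 2 < θ →
      ((∀ ρ ∈ NTZ, ρ.re ≤ θ) → ∃ C : ℝ, ∀ a : ℝ, 0 ≤ a → defect P a ≤ C * Real.exp ((2 * θ - 1) * a)) ∧
      ((∃ C : ℝ, ∃ᶠ a : ℝ in atTop, defect P a ≤ C * Real.exp ((2 * θ - 1) * a)) → ∀ ρ ∈ NTZ, ρ.re ≤ θ) ∧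
      ((∀ ρ ∈ NTZ, ρ.re < θ) → Tendsto (fun a : ℝ => defect P a / Real.exp ((2 * θ - 1) * a)) atTop (𝓝 0)) ∧
      ((∀ ε : ℝ, 0 < ε → ∃ᶠ a : ℝ in atTop, defect P a ≤ ε * Real.exp ((2 * θ - 1) * a)) →
        ∀ ρ ∈ NTZ, ρ.re < θ)) ∧
    ((∃ σ₀ : ℝ, σ₀ < 1 ∧ ∀ s : ℂ, σ₀ < s.re → riemannZeta s ≠ 0) ↔
      ∃ δ : ℝ, 0 < δ ∧ ∃ᶠ a : ℝ in atTop, defect P a ≤ Real.exp ((1 - δ) * a)) := by
  refine ⟨fun a g hg => wterm_summable hg, set_bdd P, fun Θ hΘ => exponent hP Θ hΘ, fun θ hθ => ⟨fun h => ?_,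
    fun ⟨C, hC⟩ => closed_of_freq hP θ hθ C hC, fun h => small hP θ hθ h, fun h => open_of_freq hP θ hθ h⟩, q1 hP⟩
  obtain ⟨C, _, hC⟩ := upper hP θ hθ h
  exact ⟨C, hC⟩

end Pool.Agent.Results.MP_5a4862_nt.WeilPositivityRate
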